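import Mathlib
import Pool.Agent.Helper3_PPX.Geo
import Pool.Agent.Helper41_PRS.RAM

/-!
# Squad PPX, module HTL: the heights of `θ` and `Λ`
-/

set_option autoImplicit false

universe u

namespace Pool.Agent.PPX.H52

open PGH Pool.Agent.PPX

section

variable {L E : Type u} [Field L] [Field E] [Algebra L E]

theorem ld_mul (D : Derivation ℤ E E) {a b : E} (ha : a ≠ 0) (hb : b ≠ 0) :
    D (a * b) / (a * b) = D a / a + D b / b := by
  rw [D.leibniz, smul_eq_mul, smul_eq_mul]
  field_simp
  ring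

theorem ld_prod (D : Derivation ℤ E E) {ι : Type*} (s : Finset ι) (g : ι → E)
    (hg : ∀ i ∈ s, g i ≠ 0) :
    D (∏ i ∈ s, g i) / ∏ i ∈ s, g i = ∑ i ∈ s, D (g i) / g i := by
  classical
  induction s using Finset.induction_on with
  | empty => simp
  | insert i s hi ih =>
    rw [Finset.prod_insert hi, Finset.sum_insert hi,
      ld_mul D (hg i (Finset.mem_insert_self _ _))
        (Finset.prod_ne_zero_iff.2 fun j hj => hg j (Finset.mem_insert_of_mem hj)),
      ih fun j hj => hg j (Finset.mem_insert_of_mem hj)]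

theorem ld_div (D : Derivation ℤ E E) {a b : E} (ha : a ≠ 0) (hb : b ≠ 0) :
    D (a / b) / (a / b) = D a / a - D b / b := by
  have h := ld_mul D (div_ne_zero ha hb) hb
  rw [div_mul_cancel₀ _ hb] at h
  rw [h]
  ring

theorem ge_ld {P : Place L E} {D : Derivation ℤ E E} {c : ℤ} (h : DGe P D (-c)) {y : E}
    (hy : y ≠ 0) : P.Ge (-c - (if P.ord y = 0 then 0 else 1)) (D y / y) := by
  have hinv : P.Ge (-(P.ord y)) y⁻¹ := by
    rw [P.ge_iff (inv_ne_zero hy), P.ord_inv]
  rw [div_eq_mul_inv]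
  split_ifs with h0
  · have h1 := h y ((P.ge_iff hy).2 h0.ge)
    exact h1.mul' hinv (by omega)
  · have h1 := h.ge (P.ge_ord (y := y))
    exact h1.mul' hinv (by omega)

variable [IsAlgClosed L] [CharZero L] [FF L E]

theorem card_le (y : E) (S : Finset (Place L E)) (h : ∀ P ∈ S, P.ord y ≠ 0) :
    S.card ≤ 2 * ht L y := by
  have h1 := sum_poles_le (L := L) y S
  have h2 := sum_poles_le (L := L) y⁻¹ S
  rw [ht_inv] at h2
  have h3 : (S.card : ℤ) ≤ ∑ P ∈ S, (max 0 (-P.ord y) + max 0 (-P.ord y⁻¹)) := by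
    have : (S.card : ℤ) = ∑ P ∈ S, (1 : ℤ) := by simp
    rw [this]
    refine Finset.sum_le_sum fun P hP => ?_
    have := h P hP
    rw [P.ord_inv]
    omega
  rw [Finset.sum_add_distrib] at h3
  have : (S.card : ℤ) ≤ 2 * (ht L y : ℤ) := by linarith
  exact_mod_cast this

omit [IsAlgClosed L] [CharZero L] [FF L E] in
/-- the order of the derivative is bounded below -/
theorem ord_deriv (D : Derivation ℤ E E) (c : ℕ) (P : Place L E) (hD : DGe P D (-(c : ℤ)))
    {x : E} (hx : D x ≠ 0) : 0 ≤ P.ord (D x) + c + 2 * max 0 (-P.ord x) := by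
  have h := Pool.Agent.PRS.H41.local_est D c P hD (N := 0) (fun i => i.elim0) x
    (fun i => i.elim0) (fun i => i.elim0) hx ∅ (fun h => absurd h (Set.notMem_empty _))
  have h0 := Pool.Agent.PRS.H41.term_nonneg (∅ : Set (Place L E)) (fun i : Fin 0 => i.elim0) x P
  omega

end

theorem htl : HtlStmt.{u} := by
  intro L E _ _ _ _ _ _ _ D cp sc hB N₁ N₂ a b x z hDa hDb hx hz Z hZ
  classical
  have hxa : ∀ i, x - algebraMap L E (a i) ≠ 0 := by
    intro i h
    apply hx
    rw [sub_eq_zero.1 h]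
    exact hDa i
  have hzb : ∀ j, z - algebraMap L E (b j) ≠ 0 := by
    intro j h
    apply hz
    rw [sub_eq_zero.1 h]
    exact hDb j
  have hth0 : th D x z ≠ 0 := div_ne_zero hx hz
  set f : E := ∏ i, (x - algebraMap L E (a i)) with hf
  set g : E := ∏ j, (z - algebraMap L E (b j)) with hg
  have hf0 : f ≠ 0 := Finset.prod_ne_zero_iff.2 fun i _ => hxa i
  have hg0 : g ≠ 0 := Finset.prod_ne_zero_iff.2 fun j _ => hzb j
  have hfg0 : f / g ≠ 0 := div_ne_zero hf0 hg0
  set La : E := la D (fun i => algebraMap L E (a i)) (fun j => algebraMap L E (b j)) x z with hLa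
  have hLa' : La = (D (th D x z) / th D x z - 2 * (D (f / g) / (f / g))) / D z := by
    rw [hLa, la, ld_div D hf0 hg0, hf, hg, ld_prod D _ _ fun i _ => hxa i,
      ld_prod D _ _ fun j _ => hzb j]
    congr 3
    congr 1
    · refine Finset.sum_congr rfl fun i _ => ?_
      rw [map_sub, hDa i, sub_zero]
    · refine Finset.sum_congr rfl fun j _ => ?_
      rw [map_sub, hDb j, sub_zero]
  -- local estimates
  have hz1 : ∀ P : Place L E, 0 ≤ P.ord (D z) + cp P + 2 * max 0 (-P.ord z) := fun P =>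
    ord_deriv D (cp P) P (hB.dge P) hz
  have hx1 : ∀ P : Place L E, 0 ≤ P.ord (D x) + cp P + 2 * max 0 (-P.ord x) := fun P =>
    ord_deriv D (cp P) P (hB.dge P) hx
  have hth : ∀ P : Place L E, max 0 (-P.ord (th D x z)) ≤
      (P.ord (D z) + cp P + 2 * max 0 (-P.ord z)) + (cp P + 2 * max 0 (-P.ord x)) := by
    intro P
    have h1 := hz1 P
    have h2 := hx1 P
    have h3 : P.ord (th D x z) = P.ord (D x) - P.ord (D z) := P.ord_div hx hz
    rw [h3]
    omega
  have hlal : ∀ P : Place L E, max 0 (-P.ord La) ≤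
      (if P.ord (th D x z) = 0 then 0 else 1) + (if P.ord (f / g) = 0 then 0 else 1) + cp P +
        (P.ord (D z) + cp P + 2 * max 0 (-P.ord z)) := by
    intro P
    have h1 := hz1 P
    have h4 := ge_ld (hB.dge P) hth0
    have h5 := ge_ld (hB.dge P) hfg0
    have h2 : P.Ge 0 (2 : E) := by
      have := P.ge_const (2 : L)
      rwa [map_ofNat] at this
    set A : ℤ := if P.ord (th D x z) = 0 then 0 else 1 with hA
    set B : ℤ := if P.ord (f / g) = 0 then 0 else 1 with hBdef
    have hA0 : 0 ≤ A := by rw [hA]; split_ifs <;> omega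
    have hB0 : 0 ≤ B := by rw [hBdef]; split_ifs <;> omega
    have hnum : P.Ge (-(cp P : ℤ) - (A + B))
        (D (th D x z) / th D x z - 2 * (D (f / g) / (f / g))) := by
      refine Place.Ge.sub (h4.mono (by omega)) ?_
      exact h2.mul' h5 (by omega)
    have hge : P.Ge (-(cp P : ℤ) - (A + B) - P.ord (D z)) La := by
      rw [hLa', div_eq_mul_inv]
      have hinv : P.Ge (-(P.ord (D z))) (D z)⁻¹ := by
        rw [P.ge_iff (inv_ne_zero hz), P.ord_inv]
      exact hnum.mul' hinv (by omega)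
    rcases eq_or_ne La 0 with h0 | h0
    · rw [h0, P.ord_zero]
      simp only [neg_zero, max_self]
      omega
    · rw [P.ge_iff h0] at hge
      omega
  -- a large finite set of places
  have hex : ∀ w : E, ∃ s : Finset (Place L E), ∀ P, P ∈ s ↔ P.ord w ≠ 0 :=
    fun w => (finite_support (L := L) w).exists_finset
  choose S hS using hex
  set T : Finset (Place L E) := sc ∪ S (D z) ∪ S (th D x z) ∪ S La with hT
  have hmem : ∀ w : E, w = D z ∨ w = th D x z ∨ w = La → ∀ P ∉ T, P.ord w = 0 := by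
    intro w hw P hP
    by_contra h0
    apply hP
    rw [hT]
    rcases hw with rfl | rfl | rfl
    · exact Finset.mem_union_left _ (Finset.mem_union_left _ (Finset.mem_union_right _
        ((hS _ P).2 h0)))
    · exact Finset.mem_union_left _ (Finset.mem_union_right _ ((hS _ P).2 h0))
    · exact Finset.mem_union_right _ ((hS _ P).2 h0)
  have hDz0 : ∑ P ∈ T, P.ord (D z) = 0 := sum_ord_eq_zero _ _ (hmem _ (Or.inl rfl))
  have hcp : ∑ P ∈ T, (cp P : ℤ) = ∑ P ∈ sc, (cp P : ℤ) := by
    symm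
    apply Finset.sum_subset
    · intro P hP
      rw [hT]
      exact Finset.mem_union_left _ (Finset.mem_union_left _ (Finset.mem_union_left _ hP))
    · intro P _ hP
      rw [hB.cp0 P hP]
      rfl
  have hpx := sum_poles_le (L := L) x T
  have hpz := sum_poles_le (L := L) z T
  have htht : (ht L (th D x z) : ℤ) ≤ 2 * (ht L x + ht L z) + 2 * ∑ P ∈ sc, (cp P : ℤ) := by
    rw [← sum_poles_eq (L := L) (th D x z) T (hmem _ (Or.inr (Or.inl rfl)))]
    refine (Finset.sum_le_sum fun P _ => hth P).trans ?_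
    rw [Finset.sum_add_distrib, Finset.sum_add_distrib, Finset.sum_add_distrib,
      Finset.sum_add_distrib, ← Finset.mul_sum, ← Finset.mul_sum, hDz0, hcp]
    linarith
  have hcard1 : (∑ P ∈ T, (if P.ord (th D x z) = 0 then (0 : ℤ) else 1)) ≤
      2 * (ht L (th D x z) : ℤ) := by
    have h1 : (∑ P ∈ T, (if P.ord (th D x z) = 0 then (0 : ℤ) else 1)) =
        ((T.filter fun P => P.ord (th D x z) ≠ 0).card : ℤ) := by
      rw [Finset.card_filter]
      push_cast
      refine Finset.sum_congr rfl fun P _ => ?_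
      by_cases h : P.ord (th D x z) = 0 <;> simp [h]
    rw [h1]
    have := card_le (L := L) (th D x z) (T.filter fun P => P.ord (th D x z) ≠ 0)
      (fun P hP => (Finset.mem_filter.1 hP).2)
    exact_mod_cast this
  have hcard2 : (∑ P ∈ T, (if P.ord (f / g) = 0 then (0 : ℤ) else 1)) ≤ (Z : ℤ) := by
    have h1 : (∑ P ∈ T, (if P.ord (f / g) = 0 then (0 : ℤ) else 1)) =
        ((T.filter fun P => P.ord (f / g) ≠ 0).card : ℤ) := by
      rw [Finset.card_filter]
      push_cast
      refine Finset.sum_congr rfl fun P _ => ?_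
      by_cases h : P.ord (f / g) = 0 <;> simp [h]
    rw [h1]
    have := hZ (T.filter fun P => P.ord (f / g) ≠ 0) (fun P hP => (Finset.mem_filter.1 hP).2)
    exact_mod_cast this
  constructor
  · have : ((ht L (th D x z) : ℕ) : ℤ) ≤ ((2 * (ht L x + ht L z) + 2 * ∑ P ∈ sc, cp P : ℕ) : ℤ) := by
      push_cast
      exact htht
    exact_mod_cast this
  · have hfin : (ht L La : ℤ) ≤ 6 * (ht L x + ht L z) + 7 * (∑ P ∈ sc, (cp P : ℤ)) + Z := by
      rw [← sum_poles_eq (L := L) La T (hmem _ (Or.inr (Or.inr rfl)))]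
      refine (Finset.sum_le_sum fun P _ => hlal P).trans ?_
      rw [Finset.sum_add_distrib, Finset.sum_add_distrib, Finset.sum_add_distrib,
        Finset.sum_add_distrib, Finset.sum_add_distrib, ← Finset.mul_sum, hDz0, hcp]
      have hcpnn : 0 ≤ ∑ P ∈ sc, (cp P : ℤ) := Finset.sum_nonneg fun P _ => Int.natCast_nonneg _
      have hhx : (0 : ℤ) ≤ ht L x := Int.natCast_nonneg _
      linarith
    have : ((ht L La : ℕ) : ℤ) ≤
        ((6 * (ht L x + ht L z) + 7 * (∑ P ∈ sc, cp P) + Z : ℕ) : ℤ) := by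
      push_cast
      exact hfin
    exact_mod_cast this

end Pool.Agent.PPX.H52
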