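import Mathlib
import Pool.Agent.Helper52_PPX.Htl

/-!
# Squad PPX, module NGC: counting the good places
-/

set_option autoImplicit false

universe u

namespace Pool.Agent.PPX.H52

open PGH Pool.Agent.PPX
open Pool.Agent.PRS.H41 (term term_nonneg)

section

variable {L E : Type u} [Field L] [Field E] [Algebra L E]

theorem other_le {N : ℕ} {a : Fin N → L} {x : E} (P : Place L E) (ha : Function.Injective a)
    (hne : ∀ i, x - algebraMap L E (a i) ≠ 0) {i : Fin N}
    (hi : 1 ≤ P.ord (x - algebraMap L E (a i))) (j : Fin N) (hj : j ≠ i) :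
    P.ord (x - algebraMap L E (a j)) ≤ 0 := by
  by_contra hcon
  apply hj
  apply ha
  exact P.res_unique ((P.ge_iff (hne j)).2 (by omega)) ((P.ge_iff (hne i)).2 hi)

/-- the sum of the orders of the zeros -/
noncomputable def zs {N : ℕ} (a : Fin N → L) (x : E) (P : Place L E) : ℤ :=
  ∑ i, max 0 (P.ord (x - algebraMap L E (a i)))

theorem zs_single {N : ℕ} {a : Fin N → L} {x : E} (P : Place L E) (ha : Function.Injective a)
    (hne : ∀ i, x - algebraMap L E (a i) ≠ 0) {i : Fin N}
    (hi : 1 ≤ P.ord (x - algebraMap L E (a i))) :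
    zs a x P = P.ord (x - algebraMap L E (a i)) := by
  unfold zs
  rw [Finset.sum_eq_single i]
  · exact max_eq_right (by omega)
  · intro j _ hj
    exact max_eq_left (other_le P ha hne hi j hj)
  · intro h
    exact absurd (Finset.mem_univ i) h

theorem term_single {N : ℕ} {a : Fin N → L} {x : E} (P : Place L E) (st : Set (Place L E))
    (i : Fin N) (hi : 1 ≤ P.ord (x - algebraMap L E (a i))) :
    (P ∈ st → P.ord (x - algebraMap L E (a i)) ≤ term st a x P) ∧
    P.ord (x - algebraMap L E (a i)) - 1 ≤ term st a x P := by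
  classical
  have h1 := Finset.single_le_sum (s := Finset.univ) (a := i)
    (f := fun i => (if P ∈ st then max 0 (P.ord (x - algebraMap L E (a i)))
        else max 0 (P.ord (x - algebraMap L E (a i)) - 1)))
    (fun i _ => by split_ifs <;> exact le_max_left _ _) (Finset.mem_univ i)
  have h2 : (if P ∈ st then max 0 (P.ord (x - algebraMap L E (a i)))
        else max 0 (P.ord (x - algebraMap L E (a i)) - 1)) ≤ term st a x P := by
    unfold term
    refine h1.trans (le_of_eq ?_)
    refine Finset.sum_congr rfl fun j _ => ?_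
    split_ifs <;> rfl
  constructor
  · intro hP
    rw [if_pos hP] at h2
    omega
  · split_ifs at h2
    · omega
    · omega

theorem zs_le {N : ℕ} {a : Fin N → L} {x : E} (P : Place L E) (ha : Function.Injective a)
    (hne : ∀ i, x - algebraMap L E (a i) ≠ 0) (st : Set (Place L E)) (m : ℤ) (hm : 0 ≤ m)
    (h : P ∉ st → ∀ i, P.ord (x - algebraMap L E (a i)) = 1 → 1 ≤ m) :
    zs a x P ≤ 2 * term st a x P + m := by
  have h0 := term_nonneg st a x P
  by_cases hex : ∃ i, 1 ≤ P.ord (x - algebraMap L E (a i))
  · obtain ⟨i, hi⟩ := hex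
    rw [zs_single P ha hne hi]
    obtain ⟨h1, h2⟩ := term_single P st i hi
    by_cases hP : P ∈ st
    · have := h1 hP
      omega
    · rcases eq_or_lt_of_le hi with h3 | h3
      · have := h hP i h3.symm
        omega
      · omega
  · push Not at hex
    have : zs a x P = 0 := by
      unfold zs
      exact Finset.sum_eq_zero fun i _ => max_eq_left (by have := hex i; omega)
    omega

theorem ord_prod' {ι : Type*} (P : Place L E) (s : Finset ι) (g : ι → E)
    (hg : ∀ i ∈ s, g i ≠ 0) : P.ord (∏ i ∈ s, g i) = ∑ i ∈ s, P.ord (g i) := by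
  classical
  induction s using Finset.induction_on with
  | empty =>
    simp only [Finset.prod_empty, Finset.sum_empty]
    have := P.ord_const (1 : L)
    rwa [map_one] at this
  | insert i s hi ih =>
    rw [Finset.prod_insert hi, Finset.sum_insert hi,
      P.ord_mul (hg i (Finset.mem_insert_self _ _))
        (Finset.prod_ne_zero_iff.2 fun j hj => hg j (Finset.mem_insert_of_mem hj)),
      ih fun j hj => hg j (Finset.mem_insert_of_mem hj)]

variable [IsAlgClosed L] [CharZero L] [FF L E]

theorem ht_sub_const (x : E) (c : L) : ht L (x - algebraMap L E c) = ht L x := by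
  apply le_antisymm
  · have := ht_add_le (L := L) x (algebraMap L E (-c))
    rw [ht_const, map_neg, ← sub_eq_add_neg, add_zero] at this
    exact this
  · have := ht_add_le (L := L) (x - algebraMap L E c) (algebraMap L E c)
    rw [ht_const, sub_add_cancel, add_zero] at this
    exact this

theorem sum_zeros_eq (y : E) (s : Finset (Place L E)) (hs : ∀ P ∉ s, P.ord y = 0) :
    ∑ P ∈ s, max 0 (P.ord y) = ht L y := by
  have := sum_poles_eq (L := L) y⁻¹ s (fun P hP => by rw [P.ord_inv, hs P hP, neg_zero])
  rw [ht_inv] at this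
  rw [← this]
  refine Finset.sum_congr rfl fun P _ => ?_
  rw [P.ord_inv, neg_neg]

theorem sum_zs {N : ℕ} (a : Fin N → L) (x : E) (T : Finset (Place L E))
    (hT : ∀ i, ∀ P ∉ T, P.ord (x - algebraMap L E (a i)) = 0) :
    ∑ P ∈ T, zs a x P = N * ht L x := by
  unfold zs
  rw [Finset.sum_comm, Finset.sum_congr rfl fun i _ => sum_zeros_eq _ T (hT i)]
  simp only [ht_sub_const, Finset.sum_const, Finset.card_univ, Fintype.card_fin, nsmul_eq_mul]

/-- the local count of the bad places: number of places of `T` in one of five classes -/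
theorem card_bad {x y : E} (T bd sc : Finset (Place L E)) (cp : Place L E → ℕ)
    (hcp : ∀ P ∉ sc, cp P = 0) (w : Place L E → ℤ) (hw : ∀ P, 0 ≤ w P) (W : ℤ)
    (hW : ∀ s : Finset (Place L E), ∑ P ∈ s, w P ≤ W)
    (h : ∀ P ∈ T, cp P ≠ 0 ∨ P ∈ bd ∨ P.ord x < 0 ∨ P.ord y < 0 ∨ 1 ≤ w P) :
    (T.card : ℤ) ≤ (∑ P ∈ sc, (cp P : ℤ)) + bd.card + ht L x + ht L y + W := by
  classical
  have h1 : (T.card : ℤ) ≤ ∑ P ∈ T, ((cp P : ℤ) + (if P ∈ bd then 1 else 0) +
      max 0 (-P.ord x) + max 0 (-P.ord y) + w P) := by
    have h2 : (T.card : ℤ) = ∑ P ∈ T, (1 : ℤ) := by simp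
    rw [h2]
    refine Finset.sum_le_sum fun P hP => ?_
    have hwP := hw P
    rcases h P hP with h3 | h3 | h3 | h3 | h3
    · have : (1 : ℤ) ≤ cp P := by exact_mod_cast Nat.one_le_iff_ne_zero.2 h3
      split_ifs <;> omega
    · rw [if_pos h3]
      omega
    · split_ifs <;> omega
    · split_ifs <;> omega
    · split_ifs <;> omega
  rw [Finset.sum_add_distrib, Finset.sum_add_distrib, Finset.sum_add_distrib,
    Finset.sum_add_distrib] at h1
  have h3 : ∑ P ∈ T, (cp P : ℤ) ≤ ∑ P ∈ sc, (cp P : ℤ) := by
    calc ∑ P ∈ T, (cp P : ℤ) ≤ ∑ P ∈ T ∪ sc, (cp P : ℤ) :=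
          Finset.sum_le_sum_of_subset_of_nonneg Finset.subset_union_left
            fun P _ _ => Int.natCast_nonneg _
      _ = ∑ P ∈ sc, (cp P : ℤ) := by
          symm
          apply Finset.sum_subset Finset.subset_union_right
          intro P _ hP
          rw [hcp P hP]
          rfl
  have h4 : ∑ P ∈ T, (if P ∈ bd then (1 : ℤ) else 0) ≤ bd.card := by
    rw [Finset.sum_ite_mem, Finset.sum_const, nsmul_eq_mul, mul_one]
    exact_mod_cast Finset.card_le_card Finset.inter_subset_right
  have h5 := sum_poles_le (L := L) x T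
  have h6 := sum_poles_le (L := L) y T
  have h7 := hW T
  linarith

end

theorem ngc : NgcStmt.{u} := by
  intro L E _ _ _ _ _ _ _ D cp sc bd hB N₁ N₂ a b x z ha hb hDa hDb hx hz hpat
  classical
  have hxa : ∀ i, x - algebraMap L E (a i) ≠ 0 := by
    intro i h
    apply hx
    rw [sub_eq_zero.1 h]
    exact hDa i
  have hzb : ∀ j, z - algebraMap L E (b j) ≠ 0 := by
    intro j h
    apply hz
    rw [sub_eq_zero.1 h]
    exact hDb j
  have hx0 : x ≠ 0 := by
    rintro rfl
    exact hx (map_zero D)
  have hz0 : z ≠ 0 := by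
    rintro rfl
    exact hz (map_zero D)
  let st : Set (Place L E) := {P | cp P = 0 ∧ ∀ y, P.Ge 1 y → P.Ge 1 (D y)}
  have hmov : ∀ P, cp P = 0 → P ∉ st → Mov D P := by
    intro P h0 hP
    have h1 := hB.dge P
    rw [h0] at h1
    refine ⟨by simpa using h1, ?_⟩
    by_contra hcon
    apply hP
    refine ⟨h0, fun y hy => ?_⟩
    by_contra hy'
    exact hcon ⟨y, hy, hy'⟩
  have hramx : ∀ s : Finset (Place L E), ∑ P ∈ s, term st a x P ≤
      2 * (ht L x : ℤ) + ∑ P ∈ sc, (cp P : ℤ) := fun s =>
    Pool.Agent.PRS.H41.ram D cp sc hB.cp0 hB.dge N₁ a x ha hDa hx st (fun P hP => hP) s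
  have hramz : ∀ s : Finset (Place L E), ∑ P ∈ s, term st b z P ≤
      2 * (ht L z : ℤ) + ∑ P ∈ sc, (cp P : ℤ) := fun s =>
    Pool.Agent.PRS.H41.ram D cp sc hB.cp0 hB.dge N₂ b z hb hDb hz st (fun P hP => hP) s
  have htx := term_nonneg st a x
  have htz := term_nonneg st b z
  constructor
  · -- a large finite set of places
    have hex : ∀ w : E, ∃ s : Finset (Place L E), ∀ P, P ∈ s ↔ P.ord w ≠ 0 :=
      fun w => (finite_support (L := L) w).exists_finset
    choose S hS using hex
    set T : Finset (Place L E) := (Finset.univ.biUnion fun i => S (x - algebraMap L E (a i))) ∪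
      (Finset.univ.biUnion fun j => S (z - algebraMap L E (b j))) with hT
    have hTx : ∀ i, ∀ P ∉ T, P.ord (x - algebraMap L E (a i)) = 0 := by
      intro i P hP
      by_contra h0
      apply hP
      rw [hT]
      exact Finset.mem_union_left _ (Finset.mem_biUnion.2 ⟨i, Finset.mem_univ _, (hS _ P).2 h0⟩)
    have hTz : ∀ j, ∀ P ∉ T, P.ord (z - algebraMap L E (b j)) = 0 := by
      intro j P hP
      by_contra h0
      apply hP
      rw [hT]
      exact Finset.mem_union_right _ (Finset.mem_biUnion.2 ⟨j, Finset.mem_univ _, (hS _ P).2 h0⟩)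
    set Sn : Finset (Place L E) := T.filter fun P => ∃ i j, Node D a b x z i j P with hSn
    refine ⟨Sn, fun P hP => (Finset.mem_filter.1 hP).2, ?_, ?_⟩
    · set Ux : Finset (Place L E) := T.filter fun P =>
        P ∉ st ∧ ∃ i, P.ord (x - algebraMap L E (a i)) = 1 with hUx
      have h1 : ((N₁ * ht L x : ℕ) : ℤ) ≤ 2 * (2 * (ht L x : ℤ) + ∑ P ∈ sc, (cp P : ℤ)) +
          Ux.card := by
        push_cast
        rw [← sum_zs a x T hTx]
        have h2 : ∑ P ∈ T, zs a x P ≤
            ∑ P ∈ T, (2 * term st a x P + (if P ∈ Ux then 1 else 0)) := by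
          refine Finset.sum_le_sum fun P hP => ?_
          refine zs_le P ha hxa st _ (by split_ifs <;> omega) ?_
          intro hPs i hi
          rw [if_pos]
          rw [hUx]
          exact Finset.mem_filter.2 ⟨hP, hPs, i, hi⟩
        rw [Finset.sum_add_distrib, ← Finset.mul_sum] at h2
        have h3 := hramx T
        have h4 : ∑ P ∈ T, (if P ∈ Ux then (1 : ℤ) else 0) ≤ Ux.card := by
          rw [Finset.sum_ite_mem, Finset.sum_const, nsmul_eq_mul, mul_one]
          exact_mod_cast Finset.card_le_card Finset.inter_subset_right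
        linarith
      have h5 : ((Ux \ Sn).card : ℤ) ≤ (∑ P ∈ sc, (cp P : ℤ)) + bd.card +
          ht L (1 : E) + ht L z + (2 * (ht L z : ℤ) + ∑ P ∈ sc, (cp P : ℤ)) := by
        refine card_bad (Ux \ Sn) bd sc cp hB.cp0 (term st b z) htz _ hramz ?_
        intro P hP
        obtain ⟨hP1, hP2⟩ := Finset.mem_sdiff.1 hP
        rw [hUx, Finset.mem_filter] at hP1
        obtain ⟨hPT, hPs, i, hi⟩ := hP1
        by_cases hc : cp P = 0
        · by_cases hbd : P ∈ bd
          · exact Or.inr (Or.inl hbd)
          · by_cases hzp : P.ord z < 0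
            · exact Or.inr (Or.inr (Or.inr (Or.inl hzp)))
            · right; right; right; right
              have hm := hmov P hc hPs
              obtain ⟨j, hj⟩ := hpat.one P hbd hm i hi ((P.ge_iff hz0).2 (by omega))
              have hj1 : 1 ≤ P.ord (z - algebraMap L E (b j)) := (P.ge_iff (hzb j)).1 hj
              rcases eq_or_lt_of_le hj1 with h6 | h6
              · exfalso
                apply hP2
                rw [hSn]
                exact Finset.mem_filter.2 ⟨hPT, i, j, hm, hi, h6.symm⟩
              · have := (term_single P st j hj1 (a := b) (x := z)).2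
                omega
        · exact Or.inl hc
      have h7 : (Ux.card : ℤ) ≤ Sn.card + (Ux \ Sn).card := by
        have : Ux.card ≤ Sn.card + (Ux \ Sn).card := by
          have h8 := Finset.card_le_card_sdiff_add_card (s := Ux) (t := Sn)
          omega
        exact_mod_cast this
      have h9 : ht L (1 : E) = 0 := by
        have := ht_const (E := E) (1 : L)
        rwa [map_one] at this
      rw [h9] at h5
      have h10 : ((N₁ * ht L x : ℕ) : ℤ) ≤
          ((Sn.card + 4 * ht L x + 3 * ht L z + 4 * (∑ P ∈ sc, cp P) + bd.card : ℕ) : ℤ) := by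
        push_cast at h1 h5 ⊢
        linarith
      exact_mod_cast h10
    · set Uz : Finset (Place L E) := T.filter fun P =>
        P ∉ st ∧ ∃ j, P.ord (z - algebraMap L E (b j)) = 1 with hUz
      have h1 : ((N₂ * ht L z : ℕ) : ℤ) ≤ 2 * (2 * (ht L z : ℤ) + ∑ P ∈ sc, (cp P : ℤ)) +
          Uz.card := by
        push_cast
        rw [← sum_zs b z T hTz]
        have h2 : ∑ P ∈ T, zs b z P ≤
            ∑ P ∈ T, (2 * term st b z P + (if P ∈ Uz then 1 else 0)) := by
          refine Finset.sum_le_sum fun P hP => ?_
          refine zs_le P hb hzb st _ (by split_ifs <;> omega) ?_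
          intro hPs j hj
          rw [if_pos]
          rw [hUz]
          exact Finset.mem_filter.2 ⟨hP, hPs, j, hj⟩
        rw [Finset.sum_add_distrib, ← Finset.mul_sum] at h2
        have h3 := hramz T
        have h4 : ∑ P ∈ T, (if P ∈ Uz then (1 : ℤ) else 0) ≤ Uz.card := by
          rw [Finset.sum_ite_mem, Finset.sum_const, nsmul_eq_mul, mul_one]
          exact_mod_cast Finset.card_le_card Finset.inter_subset_right
        linarith
      have h5 : ((Uz \ Sn).card : ℤ) ≤ (∑ P ∈ sc, (cp P : ℤ)) + bd.card +
          ht L (1 : E) + ht L x + (2 * (ht L x : ℤ) + ∑ P ∈ sc, (cp P : ℤ)) := by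
        refine card_bad (Uz \ Sn) bd sc cp hB.cp0 (term st a x) htx _ hramx ?_
        intro P hP
        obtain ⟨hP1, hP2⟩ := Finset.mem_sdiff.1 hP
        rw [hUz, Finset.mem_filter] at hP1
        obtain ⟨hPT, hPs, j, hj⟩ := hP1
        by_cases hc : cp P = 0
        · by_cases hbd : P ∈ bd
          · exact Or.inr (Or.inl hbd)
          · by_cases hxp : P.ord x < 0
            · exact Or.inr (Or.inr (Or.inr (Or.inl hxp)))
            · right; right; right; right
              have hm := hmov P hc hPs
              obtain ⟨i, hi⟩ := hpat.two P hbd hm j hj ((P.ge_iff hx0).2 (by omega))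
              have hi1 : 1 ≤ P.ord (x - algebraMap L E (a i)) := (P.ge_iff (hxa i)).1 hi
              rcases eq_or_lt_of_le hi1 with h6 | h6
              · exfalso
                apply hP2
                rw [hSn]
                exact Finset.mem_filter.2 ⟨hPT, i, j, hm, h6.symm, hj⟩
              · have := (term_single P st i hi1 (a := a) (x := x)).2
                omega
        · exact Or.inl hc
      have h7 : (Uz.card : ℤ) ≤ Sn.card + (Uz \ Sn).card := by
        have : Uz.card ≤ Sn.card + (Uz \ Sn).card := by
          have h8 := Finset.card_le_card_sdiff_add_card (s := Uz) (t := Sn)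
          omega
        exact_mod_cast this
      have h9 : ht L (1 : E) = 0 := by
        have := ht_const (E := E) (1 : L)
        rwa [map_one] at this
      rw [h9] at h5
      have h10 : ((N₂ * ht L z : ℕ) : ℤ) ≤
          ((Sn.card + 4 * ht L z + 3 * ht L x + 4 * (∑ P ∈ sc, cp P) + bd.card : ℕ) : ℤ) := by
        push_cast at h1 h5 ⊢
        linarith
      exact_mod_cast h10
  · intro S hS
    have h1 : (S.card : ℤ) ≤ (∑ P ∈ sc, (cp P : ℤ)) + bd.card + ht L x + ht L z +
        ((2 * (ht L x : ℤ) + ∑ P ∈ sc, (cp P : ℤ)) +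
          (2 * (ht L z : ℤ) + ∑ P ∈ sc, (cp P : ℤ))) := by
      refine card_bad S bd sc cp hB.cp0 (fun P => term st a x P + term st b z P)
        (fun P => add_nonneg (htx P) (htz P)) _ ?_ ?_
      · intro s
        rw [Finset.sum_add_distrib]
        exact add_le_add (hramx s) (hramz s)
      · intro P hP
        have hP0 := hS P hP
        by_contra hcon
        push Not at hcon
        obtain ⟨hc, hbd, hxp, hzp, ht⟩ := hcon
        have h2 := htx P
        have h3 := htz P
        have hxr : P.Ge 0 x := (P.ge_iff hx0).2 hxp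
        have hzr : P.Ge 0 z := (P.ge_iff hz0).2 hzp
        have hxi : ∀ i, 0 ≤ P.ord (x - algebraMap L E (a i)) := fun i =>
          (P.ge_iff (hxa i)).1 (hxr.sub (P.ge_const _))
        have hzj : ∀ j, 0 ≤ P.ord (z - algebraMap L E (b j)) := fun j =>
          (P.ge_iff (hzb j)).1 (hzr.sub (P.ge_const _))
        apply hP0
        rw [P.ord_div (Finset.prod_ne_zero_iff.2 fun i _ => hxa i)
          (Finset.prod_ne_zero_iff.2 fun j _ => hzb j), ord_prod' P _ _ fun i _ => hxa i,
          ord_prod' P _ _ fun j _ => hzb j]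
        have hsx : ∑ i, P.ord (x - algebraMap L E (a i)) = zs a x P := by
          unfold zs
          exact Finset.sum_congr rfl fun i _ => (max_eq_right (hxi i)).symm
        have hsz : ∑ j, P.ord (z - algebraMap L E (b j)) = zs b z P := by
          unfold zs
          exact Finset.sum_congr rfl fun j _ => (max_eq_right (hzj j)).symm
        rw [hsx, hsz]
        by_cases hPs : P ∈ st
        · have h4 : ∀ i, P.ord (x - algebraMap L E (a i)) ≤ 0 := by
            intro i
            by_contra h5
            have := (term_single P st i (a := a) (x := x) (by omega)).1 hPs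
            omega
          have h5 : ∀ j, P.ord (z - algebraMap L E (b j)) ≤ 0 := by
            intro j
            by_contra h5
            have := (term_single P st j (a := b) (x := z) (by omega)).1 hPs
            omega
          have h6 : zs a x P = 0 := Finset.sum_eq_zero fun i _ => max_eq_left (h4 i)
          have h7 : zs b z P = 0 := Finset.sum_eq_zero fun j _ => max_eq_left (h5 j)
          rw [h6, h7, sub_zero]
        · have hm := hmov P hc hPs
          have h4 : ∀ i, P.ord (x - algebraMap L E (a i)) ≤ 1 := by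
            intro i
            by_contra h5
            have := (term_single P st i (a := a) (x := x) (by omega)).2
            omega
          have h5 : ∀ j, P.ord (z - algebraMap L E (b j)) ≤ 1 := by
            intro j
            by_contra h5
            have := (term_single P st j (a := b) (x := z) (by omega)).2
            omega
          by_cases hex : ∃ i, P.ord (x - algebraMap L E (a i)) = 1
          · obtain ⟨i, hi⟩ := hex
            obtain ⟨j, hj⟩ := hpat.one P hbd hm i hi hzr
            have hj1 : 1 ≤ P.ord (z - algebraMap L E (b j)) := (P.ge_iff (hzb j)).1 hj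
            have hj2 := h5 j
            rw [zs_single P ha hxa hi.ge, zs_single P hb hzb hj1]
            omega
          · by_cases hex2 : ∃ j, P.ord (z - algebraMap L E (b j)) = 1
            · obtain ⟨j, hj⟩ := hex2
              obtain ⟨i, hi⟩ := hpat.two P hbd hm j hj hxr
              have hi1 : 1 ≤ P.ord (x - algebraMap L E (a i)) := (P.ge_iff (hxa i)).1 hi
              exact absurd ⟨i, le_antisymm (h4 i) hi1⟩ hex
            · have h6 : zs a x P = 0 := Finset.sum_eq_zero fun i _ => max_eq_left (by
                by_contra h7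
                exact hex ⟨i, le_antisymm (h4 i) (by omega)⟩)
              have h7 : zs b z P = 0 := Finset.sum_eq_zero fun j _ => max_eq_left (by
                by_contra h7
                exact hex2 ⟨j, le_antisymm (h5 j) (by omega)⟩)
              rw [h6, h7, sub_zero]
    have h2 : ((S.card : ℕ) : ℤ) ≤
        ((3 * (ht L x + ht L z) + 3 * (∑ P ∈ sc, cp P) + bd.card : ℕ) : ℤ) := by
      push_cast
      linarith
    exact_mod_cast h2

end Pool.Agent.PPX.H52
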