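import Mathlib
import Pool.Agent.Helper1_PGH.Place
import Pool.Agent.Helper1_PGH.Deriv
import Pool.Agent.Helper3_PPX.Geo

/-!
# Squad PPX: module BDT (the data of a curve)
-/

set_option autoImplicit false

universe u

namespace Pool.Agent.PPX.H52

open MvPolynomial PGH Pool.Agent.PPX

section

variable {k L E : Type*} [Field k] [Field L] [Field E] [Algebra k L] [Algebra L E] [Algebra k E]
  [IsScalarTower k L E]

/-- evaluation is compatible with residues -/
theorem aeval_res (P : Place L E) {σ : Type*} (e : σ → E) (r : σ → L)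
    (h : ∀ n, P.Ge 1 (e n - algebraMap L E (r n))) (Q : MvPolynomial σ k) :
    P.Ge 1 (aeval e Q - algebraMap L E (aeval r Q)) := by
  induction Q using MvPolynomial.induction_on with
  | C c =>
    rw [← algebraMap_eq, AlgHom.commutes, AlgHom.commutes, ← IsScalarTower.algebraMap_apply,
      sub_self]
    exact P.ge_zero _
  | add p q hp hq =>
    rw [map_add, map_add, map_add, add_sub_add_comm]
    exact hp.add hq
  | mul_X p n hp =>
    have h1 : aeval e (p * X n) - algebraMap L E (aeval r (p * X n)) =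
        (aeval e p - algebraMap L E (aeval r p)) * e n +
          algebraMap L E (aeval r p) * (e n - algebraMap L E (r n)) := by
      rw [map_mul, map_mul, map_mul, aeval_X, aeval_X]
      ring
    rw [h1]
    refine Place.Ge.add (hp.mul' (P.ge_zero_of_res (h n)) (by norm_num))
      ((P.ge_const _).mul' (h n) (by norm_num))

/-- restriction to the line, at a point -/
theorem aeval_lin (α β s t : k) (c : L) (Q : P4 k) :
    Polynomial.aeval c (lin α β s t Q) =
      aeval ![algebraMap k L α, algebraMap k L β, c, algebraMap k L t - algebraMap k L s * c] Q := by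
  have h : ((Polynomial.aeval c).comp (lin α β s t) : P4 k →ₐ[k] L) =
      aeval ![algebraMap k L α, algebraMap k L β, c, algebraMap k L t - algebraMap k L s * c] := by
    apply MvPolynomial.algHom_ext
    intro n
    fin_cases n <;> simp [lin]
  exact DFunLike.congr_fun h Q

theorem ge_iff_lin (P : Place L E) (α β s t : k) (c : L) (e : Fin 4 → E)
    (h0 : P.Ge 1 (e 0 - algebraMap k E α)) (h1 : P.Ge 1 (e 1 - algebraMap k E β))
    (h2 : P.Ge 1 (e 2 - algebraMap L E c))
    (h3 : P.Ge 1 (e 3 - (algebraMap k E t - algebraMap k E s * e 2))) (Q : P4 k) :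
    P.Ge 1 (aeval e Q) ↔
      lin α β s t Q ∈ RingHom.ker (Polynomial.aeval c : Polynomial k →ₐ[k] L) := by
  have hr : ∀ n, P.Ge 1 (e n - algebraMap L E
      ((![algebraMap k L α, algebraMap k L β, c, algebraMap k L t - algebraMap k L s * c] :
        Fin 4 → L) n)) := by
    intro n
    fin_cases n
    · simpa [← IsScalarTower.algebraMap_apply] using h0
    · simpa [← IsScalarTower.algebraMap_apply] using h1
    · simpa using h2
    · have h4 : P.Ge 1 (e 3 - algebraMap L E (algebraMap k L t - algebraMap k L s * c)) := by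
        have h5 : e 3 - algebraMap L E (algebraMap k L t - algebraMap k L s * c) =
            (e 3 - (algebraMap k E t - algebraMap k E s * e 2)) -
              algebraMap L E (algebraMap k L s) * (e 2 - algebraMap L E c) := by
          rw [map_sub, map_mul, ← IsScalarTower.algebraMap_apply, ← IsScalarTower.algebraMap_apply]
          ring
        rw [h5]
        exact h3.sub ((P.ge_const _).mul' h2 (by norm_num))
      exact h4
  have h6 := aeval_res P e _ hr Q
  rw [← aeval_lin] at h6
  rw [RingHom.mem_ker]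
  constructor
  · intro h7
    by_contra h8
    have h9 := h7.sub h6
    rw [sub_sub_cancel] at h9
    exact P.not_ge_one_const h8 h9
  · intro h7
    have h8 : (Polynomial.aeval c) (lin α β s t Q) = 0 := h7
    rw [h8, map_zero, sub_zero] at h6
    exact h6

theorem slope_map {N : ℕ} (b : Fin N → k) (j : Fin N) :
    slope (fun i => algebraMap k L (b i)) j = algebraMap k L (slope b j) := by
  unfold slope
  rw [map_sum]
  refine Finset.sum_congr rfl fun l _ => ?_
  rw [map_div₀, map_sub, map_ofNat]

end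

theorem bdt (hloc : LocStmt.{u}) (htay : TayStmt.{u}) (hcnt : CntStmt.{u}) : BdtStmt.{u} := by
  intro k L E _ _ _ _ _ _ _ _ _ _ _ _ D cp sc bd hB hDk K₀ M₀ N₁ N₂ hK hN₁ hN₂ a b x z ha hb hDx
    hDz hpat hlt
  set a' : Fin N₁ → L := fun i => algebraMap k L (a i) with ha'
  set b' : Fin N₂ → L := fun j => algebraMap k L (b j) with hb'
  have hai : Function.Injective a' := (algebraMap k L).injective.comp ha
  have hbi : Function.Injective b' := (algebraMap k L).injective.comp hb
  have hDa : ∀ i, D (algebraMap L E (a' i)) = 0 := by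
    intro i
    rw [ha']
    simp only
    rw [← IsScalarTower.algebraMap_apply]
    exact hDk _
  have hDb : ∀ j, D (algebraMap L E (b' j)) = 0 := by
    intro j
    rw [hb']
    simp only
    rw [← IsScalarTower.algebraMap_apply]
    exact hDk _
  set e₂ : E := th D x z with he₂
  set e₃ : E := la D (fun i => algebraMap L E (a' i)) (fun j => algebraMap L E (b' j)) x z with he₃
  set e : Fin 4 → E := ![x, z, e₂, e₃] with he
  -- the key equivalence
  have hnode : ∀ (i : Fin N₁) (j : Fin N₂) (P : Place L E), Node D a' b' x z i j P →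
      P.Ge 1 (e 0 - algebraMap k E (a i)) ∧ P.Ge 1 (e 1 - algebraMap k E (b j)) ∧
      e 1 ≠ algebraMap k E (b j) ∧ P.Ge 0 (e 2) ∧ P.Ge 0 (e 3) ∧
      P.Ge 1 (e 2 - (e 0 - algebraMap k E (a i)) / (e 1 - algebraMap k E (b j))) ∧
      P.Ge 1 (e 2 - algebraMap L E (P.res e₂)) ∧
      P.Ge 1 (e 3 - (algebraMap k E (slope b j) - algebraMap k E (slope a i) * e 2)) := by
    intro i j P hP
    obtain ⟨h1, h2, h3⟩ := hloc P D a' b' x z i j hai hbi hDa hDb hP
    obtain ⟨hm, hx1, hz1⟩ := hP
    have hxa : algebraMap L E (a' i) = algebraMap k E (a i) := by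
      rw [ha']
      simp only
      rw [← IsScalarTower.algebraMap_apply]
    have hzb : algebraMap L E (b' j) = algebraMap k E (b j) := by
      rw [hb']
      simp only
      rw [← IsScalarTower.algebraMap_apply]
    have hsa : algebraMap L E (slope a' i) = algebraMap k E (slope a i) := by
      rw [ha', slope_map, ← IsScalarTower.algebraMap_apply]
    have hsb : algebraMap L E (slope b' j) = algebraMap k E (slope b j) := by
      rw [hb', slope_map, ← IsScalarTower.algebraMap_apply]
    rw [hxa, hzb] at h1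
    rw [hsa, hsb] at h3
    have hx0 : x - algebraMap k E (a i) ≠ 0 := by
      intro h
      rw [hxa, h, P.ord_zero] at hx1
      exact zero_ne_one hx1
    have hz0 : z - algebraMap k E (b j) ≠ 0 := by
      intro h
      rw [hzb, h, P.ord_zero] at hz1
      exact zero_ne_one hz1
    have hxg : P.Ge 1 (x - algebraMap k E (a i)) := (P.ge_iff hx0).2 (by rw [← hxa, hx1])
    have hzg : P.Ge 1 (z - algebraMap k E (b j)) := (P.ge_iff hz0).2 (by rw [← hzb, hz1])
    have h2g : P.Ge 0 e₂ := by
      have := P.ge_ord (y := e₂)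
      rwa [h2] at this
    have h3g : P.Ge 0 e₃ := by
      have h4 : e₃ = (e₃ - (algebraMap k E (slope b j) - algebraMap k E (slope a i) * e₂)) +
          (algebraMap k E (slope b j) - algebraMap k E (slope a i) * e₂) := by ring
      rw [h4]
      refine Place.Ge.add (h3.mono (by norm_num)) ?_
      rw [← hsa, ← hsb]
      exact (P.ge_const _).sub ((P.ge_const _).mul' h2g (by norm_num))
    exact ⟨hxg, hzg, sub_ne_zero.1 hz0, h2g, h3g, h1, P.res_spec h2g, h3⟩
  refine ⟨e₂, e₃, {g | ∃ P, Node D a' b' x z g.1 g.2.1 P ∧ g.2.2 =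
    RingHom.ker (Polynomial.aeval (P.res e₂) : Polynomial k →ₐ[k] L)}, ?_, ?_, ?_, ?_⟩
  · exact RingHom.ker_isPrime _
  · rintro Q hQ ⟨i, j, I⟩ ⟨P, hP, hI⟩
    simp only at hI hP ⊢
    obtain ⟨h0, h1, h2, h3, h4, h5, h6, h7⟩ := hnode i j P hP
    rw [hI, ← ge_iff_lin P (a i) (b j) (slope a i) (slope b j) (P.res e₂) e h0 h1 h6 h7 Q]
    have h8 : aeval e Q = 0 := hQ
    rw [h8]
    exact P.ge_zero _
  · rintro Q hQ ⟨i, j, I⟩ ⟨P, hP, hI⟩ hpl
    simp only at hI hP hpl ⊢
    obtain ⟨h0, h1, h2, h3, h4, h5, h6, h7⟩ := hnode i j P hP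
    have h8 := htay P (a i) (b j) e Q h0 h1 h2 h3 h4 h5 hQ hpl
    have h9 : e 2 * aeval e (pderiv 0 Q) + aeval e (pderiv 1 Q) =
        aeval e (X 2 * pderiv 0 Q + pderiv 1 Q) := by
      rw [map_add, map_mul, aeval_X]
    rw [h9, ge_iff_lin P (a i) (b j) (slope a i) (slope b j) (P.res e₂) e h0 h1 h6 h7,
      map_add, map_mul] at h8
    have h10 : lin (a i) (b j) (slope a i) (slope b j) (X 2) = Polynomial.X := by
      simp [lin]
    rw [h10] at h8
    rw [hI]
    exact h8
  · intro d₁ d₂ M hadm Q hQ hlin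
    refine hcnt D cp sc bd hB K₀ M₀ N₁ N₂ hK hN₁ hN₂ a' b' x z hai hbi hDa hDb hDx hDz hpat hlt
      d₁ d₂ M hadm Q hQ ?_
    intro i j P hP
    obtain ⟨h0, h1, h2, h3, h4, h5, h6, h7⟩ := hnode i j P hP
    have h8 := hlin ⟨i, j, _⟩ ⟨P, hP, rfl⟩
    simp only at h8
    exact (ge_iff_lin P (a i) (b j) (slope a i) (slope b j) (P.res e₂) e h0 h1 h6 h7 Q).2 h8

end Pool.Agent.PPX.H52
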